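import Pool.Agent.Q223.LU.MagU
import Pool.Agent.Q174.LU.LOCV

/-! # Project LU (helper77), job LOCVU, the inequality with explicit constants -/

set_option autoImplicit false

namespace Pool.Agent.Q223.LU

open MeasureTheory Matrix Set Filter Topology
open scoped ContDiff Matrix.Norms.Frobenius
open Pool.Agent.Q77.LU
open Pool.Agent.Q174.LU

/-- the constant of the localised bound -/
noncomputable def locC (N n D l : ℕ) [NeZero l] (K1 : ℝ) : ℝ :=
  1 / 2 * ((Fintype.card (Link D l) : ℝ) * n * ((n : ℝ) ^ 2 * (3 * kkC N n D l K1) +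
    n * (kkC N n D l K1 * ((Fintype.card (Link D l × Fin n) : ℝ) + 1)))) * mm N +
    1 / 2 * (Fintype.card (Link D l × Fin n) : ℝ) * kkC N n D l K1 + kkC N n D l K1

theorem kkC_nonneg (N n D l : ℕ) [NeZero l] (K1 : ℝ) : 0 ≤ kkC N n D l K1 := by
  unfold kkC
  have := nP_nonneg D l
  positivity

theorem locv_core (h1 : S_LOGC) (h2 : S_JACG) (N n D : ℕ) (G : Subgroup (UU N))
    (hG : IsClosed (G : Set (UU N))) (B : LieBasis G n) [MeasurableSpace G] [BorelSpace G]
    (μ : Measure G) [IsProbabilityMeasure μ] [μ.IsHaarMeasure] :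
    ∃ K1 t0 : ℝ, 0 ≤ K1 ∧ 0 < t0 ∧ ∀ (l : ℕ) [NeZero l] (g : ℝ), 0 < g → g < t0 ^ 5 →
      ∀ (V : Link D l → G) (F : (Link D l → G) → ℝ), IsSmooth F →
      (∀ U, F U ≠ 0 → ∀ e, ‖mt (U e) - mt (V e)‖ ≤ g ^ (3 / 5 : ℝ)) →
      (1 / 2 * tsq (hess B V) - locC N n D l K1 * g ^ (1 / 5 : ℝ)) *
        (∫ U, F U ^ 2 ∂(Measure.pi fun _ : Link D l => μ)) ≤ energy B μ g F := by
  have hc0 : CompactSpace (UU N) := isCompact_iff_compactSpace.1 (compact_UU N)
  have hc1 : SecondCountableTopology (Mt N) := sc_Mt N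
  have hcG : CompactSpace G := by
    have h1 : IsCompact (G : Set (UU N)) := hG.isCompact
    exact isCompact_iff_compactSpace.1 h1
  have h00 : SecondCountableTopology (UU N) := TopologicalSpace.Subtype.secondCountableTopology _
  have h01 : SecondCountableTopology G := TopologicalSpace.Subtype.secondCountableTopology _
  obtain ⟨K1, ε, hK1, hε, H'⟩ := mag_lowerU h1 hG B D
  obtain ⟨m, hm⟩ : ∃ m, m = mm N := ⟨_, rfl⟩
  have hm0 : 0 ≤ m := by rw [hm]; exact mm_nonneg N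
  obtain ⟨t0, ht0⟩ : ∃ t0 : ℝ,
    t0 = min 1 (min ε (min (1 / (m + 1)) (1 / (3 * (n * m + 1))))) := ⟨_, rfl⟩
  have ht00 : 0 < t0 := by rw [ht0]; positivity
  refine ⟨K1, t0, hK1, ht00, ?_⟩
  intro l _ g hg hg0 V F hF hsupp
  obtain ⟨K, hKd⟩ : ∃ K, K = kkC N n D l K1 := ⟨_, rfl⟩
  have hK : 0 ≤ K := by rw [hKd]; exact kkC_nonneg N n D l K1
  have H := H' l K hKd
  obtain ⟨nk, hnk⟩ : ∃ nk : ℝ, nk = (Fintype.card (Link D l × Fin n) : ℝ) := ⟨_, rfl⟩
  have hnk0 : 0 ≤ nk := by rw [hnk]; exact Nat.cast_nonneg _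
  obtain ⟨nl, hnl⟩ : ∃ nl : ℝ, nl = (Fintype.card (Link D l) : ℝ) := ⟨_, rfl⟩
  have hnl0 : 0 ≤ nl := by rw [hnl]; exact Nat.cast_nonneg _
  obtain ⟨C1, hC1⟩ : ∃ C1 : ℝ, C1 = nl * n * ((n : ℝ) ^ 2 * (3 * K) + n * (K * (nk + 1))) :=
    ⟨_, rfl⟩
  have hC10 : 0 ≤ C1 := by rw [hC1]; positivity
  have hLoc : locC N n D l K1 = 1 / 2 * C1 * m + 1 / 2 * nk * K + K := by
    unfold locC
    rw [← hKd, hC1, hnl, hnk, hm]
  rw [hLoc]
  -- the small parameter
  obtain ⟨t, ht, htpos, ht5, ht3, htt0⟩ := five_real g hg t0 ht00 hg0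
  rw [ht]
  rw [ht3] at hsupp
  rw [ht0] at htt0
  have a1 : t < 1 := htt0.trans_le (min_le_left _ _)
  have a2 : t < ε := htt0.trans_le ((min_le_right _ _).trans (min_le_left _ _))
  have a3 : t < 1 / (m + 1) :=
    htt0.trans_le ((min_le_right _ _).trans ((min_le_right _ _).trans (min_le_left _ _)))
  have a4 : t < 1 / (3 * (n * m + 1)) :=
    htt0.trans_le ((min_le_right _ _).trans ((min_le_right _ _).trans (min_le_right _ _)))
  obtain ⟨b2, b3, b4, b1⟩ := small_real m n t ε hm0 (Nat.cast_nonneg n) htpos a1 a2 a3 a4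
  obtain ⟨A, c, hA, hAt, hAK, hcK, HM⟩ := H V
  have hs0 : 0 ≤ 1 - t := by linarith
  have htt : 0 ≤ t ^ 3 := by positivity
  have hδ0 : 0 ≤ m * t ^ 3 := mul_nonneg hm0 htt
  -- Jacobi
  have hJ := h2 N n D l G hG B μ g hg (hh B V A c (1 - t)) F (smooth_hh B V A c (1 - t)) hF
  refine le_trans ?_ hJ
  rw [← integral_const_mul]
  have hcF : Continuous F := smooth_cont hF
  refine integral_mono ?_ ?_ ?_
  · exact (continuous_const.mul (hcF.pow 2)).integrable_of_hasCompactSupport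
      (HasCompactSupport.of_compactSpace _)
  · have c1 : Continuous fun U => ∑ e, ∑ a, dlink B e a (dlink B e a (hh B V A c (1 - t))) U := by
      refine continuous_finsetSum _ fun e _ => continuous_finsetSum _ fun a _ => ?_
      have e1 : dlink B e a (dlink B e a (hh B V A c (1 - t))) = fun U =>
          (1 - t) * ∑ b, ((∑ b', A (e, b) (e, b') * ell V ((B.X b')ᴴ * B.X a) e U) *
          ell V ((B.X b)ᴴ * B.X a) e U +
          zet B V A c U (e, b) * ell V ((B.X b)ᴴ * B.X a * B.X a) e U) :=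
        funext fun U => dlink2_hh B V A hA c (1 - t) e a U
      rw [e1]
      refine continuous_const.mul (continuous_finsetSum _ fun b _ => ?_)
      exact ((continuous_finsetSum _ fun b' _ => continuous_const.mul (cont_ell V _ e)).mul
        (cont_ell V _ e)).add ((cont_zet B V A c (e, b)).mul (cont_ell V _ e))
    have c2 : Continuous fun U => ∑ e, ∑ a, dlink B e a (hh B V A c (1 - t)) U ^ 2 := by
      refine continuous_finsetSum _ fun e _ => continuous_finsetSum _ fun a _ => ?_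
      rw [dlink_hh B V A hA]
      exact (continuous_const.mul (continuous_finsetSum _ fun b _ =>
        (cont_zet B V A c (e, b)).mul (cont_ell V _ e))).pow 2
    exact ((((continuous_const.mul c1).sub (continuous_const.mul c2)).add
      (continuous_const.mul cont_mag)).mul (hcF.pow 2)).integrable_of_hasCompactSupport
      (HasCompactSupport.of_compactSpace _)
  · intro U
    by_cases hFU : F U = 0
    · simp [hFU]
    have hU := hsupp U hFU
    have hW : ∀ e, ‖mt (U e) * (mt (V e))ᴴ - 1‖ ≤ m * t ^ 3 := fun e => by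
      rw [hm]; exact W_norm V U e (hU e)
    have q1 := HM U (t ^ 3) t htt b2 htpos a1.le hU
    have q2 := lap_lower B V A hA c K hK hAK hcK (1 - t) (m * t ^ 3) hs0 hδ0 b3 U hW
    have q3 := grad_upper B V A hA c (1 - t) (m * t ^ 3) hδ0 U hW
    have q4 := P3 ((n : ℝ) * (m * t ^ 3)) t (mul_nonneg (Nat.cast_nonneg n) hδ0) htpos a1.le b4
    simp only
    refine mul_le_mul_of_nonneg_right ?_ (sq_nonneg _)
    obtain ⟨Z, hZ⟩ : ∃ Z, Z = ∑ k, zet B V A c U k ^ 2 := ⟨_, rfl⟩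
    have hZ' : ∑ k, ((A *ᵥ yy B V U) k + c k) ^ 2 = Z := hZ.symm
    rw [hZ'] at q1
    rw [← hZ] at q3
    have hZ0 : 0 ≤ Z := by rw [hZ]; exact Finset.sum_nonneg fun k _ => sq_nonneg _
    have q5 := grad_real t _ Z _ hZ0 hs0 q3 q4
    have q6 : 1 / (2 * g ^ 2) * (∑ e, ∑ a, dlink B e a (hh B V A c (1 - t)) U ^ 2) ≤
        1 / (2 * g ^ 2) * ((1 - t) * Z) :=
      mul_le_mul_of_nonneg_left q5 (by positivity)
    have q7 := mag_real t g K Z _ htpos ht5 q1
    -- the Laplacian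
    have q10 : trace A ≤ nk * K := by rw [hnk]; exact trace_le A K hAK
    have q11 : (Fintype.card (Link D l) : ℝ) * n * ((n : ℝ) ^ 2 * (3 * K * (m * t ^ 3)) +
        n * (K * (Fintype.card (Link D l × Fin n) + 1) * (m * t ^ 3))) = C1 * m * t ^ 3 := by
      rw [hC1, hnl, hnk]; ring
    rw [q11] at q2
    have hCm : 0 ≤ C1 * m := mul_nonneg hC10 hm0
    have q12 : C1 * m * t ^ 3 ≤ C1 * m * t := mul_le_mul_of_nonneg_left b1 hCm
    have q13 := lap_real (trace A) (nk * K) (C1 * m * t ^ 3) (C1 * m * t) t q10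
      (mul_nonneg hCm htt) q12 htpos
    rw [hAt] at q13 q2
    have q14 := q13.trans q2
    exact final_real _ _ _ _ Z K t g C1 m nk q6 q7 q14

end Pool.Agent.Q223.LU
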