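import Pool.Agent.Q223.LU.CoreU
import Pool.Agent.Q77.LU.StmU

/-! # Project LU (helper77), job LOCVU -/

set_option autoImplicit false

namespace Pool.Agent.Q223.LU

open MeasureTheory Matrix Set Filter Topology
open scoped ContDiff Matrix.Norms.Frobenius
open Pool.Agent.Q77.LU
open Pool.Agent.Q174.LU (mm mm_nonneg nP nP_nonneg SS)

/-! ### cardinalities -/

theorem card_lnk (D l : ℕ) [NeZero l] :
    (Fintype.card (Link D l) : ℝ) = (l : ℝ) ^ D * D := by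
  have h : Fintype.card (Link D l) = l ^ D * D := by
    change Fintype.card ((Fin D → ZMod l) × Fin D) = _
    rw [Fintype.card_prod, Fintype.card_fun, ZMod.card, Fintype.card_fin]
  rw [h]; push_cast; ring

theorem card_lnk2 (n D l : ℕ) [NeZero l] :
    (Fintype.card (Link D l × Fin n) : ℝ) = (l : ℝ) ^ D * D * n := by
  rw [Fintype.card_prod, Fintype.card_fin]
  push_cast
  rw [card_lnk]

theorem nP_le (D l : ℕ) [NeZero l] : nP D l ≤ (l : ℝ) ^ D * (D : ℝ) ^ 2 := by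
  unfold nP SS
  calc ∑ _x : Fin D → ZMod l, ∑ i : Fin D, ∑ j : Fin D, (if i < j then (1 : ℝ) else 0)
      ≤ ∑ _x : Fin D → ZMod l, ∑ _i : Fin D, ∑ _j : Fin D, (1 : ℝ) := by
        refine Finset.sum_le_sum fun x _ => Finset.sum_le_sum fun i _ =>
          Finset.sum_le_sum fun j _ => ?_
        split_ifs
        · exact le_rfl
        · exact zero_le_one
    _ = (l : ℝ) ^ D * (D : ℝ) ^ 2 := by
        simp only [Finset.sum_const, Finset.card_univ, Fintype.card_fin, nsmul_eq_mul, mul_one,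
          Fintype.card_fun, ZMod.card]
        push_cast
        ring

/-! ### real inequalities -/

theorem sqrt_le' (z : ℝ) (hz : 0 ≤ z) : Real.sqrt z ≤ z + 1 := by
  rw [Real.sqrt_le_iff]
  constructor
  · linarith
  · nlinarith

theorem kk_real (m K1 q d n Y : ℝ) (hm : 0 ≤ m) (hK : 0 ≤ K1) (hq : 1 ≤ q) (hd : 0 ≤ d)
    (hn : 0 ≤ n) (hY0 : 0 ≤ Y) (hY : Y ≤ q * d ^ 2) :
    2 * Real.sqrt ((2 * m + (q * d * n) * K1) ^ 2 * Y) + K1 ^ 2 * Y ≤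
      (2 * ((2 * m + d * n * K1) ^ 2 * d ^ 2 + 1) + K1 ^ 2 * d ^ 2) * q ^ 3 := by
  have h1 := sqrt_le' ((2 * m + (q * d * n) * K1) ^ 2 * Y) (by positivity)
  have hq0 : 0 ≤ q := by linarith
  have h2 : 2 * m + (q * d * n) * K1 ≤ (2 * m + d * n * K1) * q := by nlinarith
  have h3 : (2 * m + (q * d * n) * K1) ^ 2 * Y ≤ ((2 * m + d * n * K1) * q) ^ 2 * (q * d ^ 2) := by
    gcongr
  have h4 : (1 : ℝ) ≤ q ^ 3 := one_le_pow₀ hq
  have h5 : q ≤ q ^ 3 := by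
    have : q ^ 1 ≤ q ^ 3 := pow_le_pow_right₀ hq (by norm_num)
    simpa using this
  have h6 : K1 ^ 2 * Y ≤ K1 ^ 2 * (q ^ 3 * d ^ 2) := by
    have : q * d ^ 2 ≤ q ^ 3 * d ^ 2 := by gcongr
    have := hY.trans this
    gcongr
  nlinarith

theorem loc_real (m q d n k c : ℝ) (hm : 0 ≤ m) (hq : 1 ≤ q) (hd : 0 ≤ d) (hn : 0 ≤ n)
    (hk : 0 ≤ k) (hc : 0 ≤ c) (hkc : k ≤ c * q ^ 3) :
    1 / 2 * ((q * d) * n * (n ^ 2 * (3 * k) + n * (k * ((q * d * n) + 1)))) * m +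
      1 / 2 * (q * d * n) * k + k ≤
      (1 / 2 * (d * n * (n ^ 2 * (3 * c) + n * (c * ((d * n) + 1)))) * m +
      1 / 2 * (d * n) * c + c) * q ^ 5 := by
  have hq0 : 0 ≤ q := by linarith
  have h1 : q * d * n + 1 ≤ (d * n + 1) * q := by nlinarith [mul_nonneg hd hn]
  have h2 : n ^ 2 * (3 * k) + n * (k * ((q * d * n) + 1)) ≤
      (n ^ 2 * (3 * c) + n * (c * ((d * n) + 1))) * q ^ 4 := by
    have h3 : k * ((q * d * n) + 1) ≤ (c * q ^ 3) * ((d * n + 1) * q) := by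
      have : 0 ≤ q * d * n + 1 := by positivity
      gcongr
    have h4 : q ^ 3 ≤ q ^ 4 := pow_le_pow_right₀ hq (by norm_num)
    have h5 : k ≤ c * q ^ 4 := hkc.trans (by gcongr)
    calc n ^ 2 * (3 * k) + n * (k * ((q * d * n) + 1))
        ≤ n ^ 2 * (3 * (c * q ^ 4)) + n * ((c * q ^ 3) * ((d * n + 1) * q)) := by gcongr
      _ = _ := by ring
  have h6 : q ^ 3 ≤ q ^ 5 := pow_le_pow_right₀ hq (by norm_num)
  have h7 : q ^ 4 ≤ q ^ 5 := pow_le_pow_right₀ hq (by norm_num)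
  have h8 : k ≤ c * q ^ 5 := hkc.trans (by gcongr)
  have h9 : (q * d) * n * (n ^ 2 * (3 * k) + n * (k * ((q * d * n) + 1))) ≤
      (q * d) * n * ((n ^ 2 * (3 * c) + n * (c * ((d * n) + 1))) * q ^ 4) := by gcongr
  have h10 : (q * d * n) * k ≤ (d * n) * c * q ^ 5 := by
    calc (q * d * n) * k ≤ (q * d * n) * (c * q ^ 3) := by gcongr
      _ = (d * n) * c * q ^ 4 := by ring
      _ ≤ _ := by gcongr
  calc 1 / 2 * ((q * d) * n * (n ^ 2 * (3 * k) + n * (k * ((q * d * n) + 1)))) * m +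
      1 / 2 * (q * d * n) * k + k
      ≤ 1 / 2 * ((q * d) * n * ((n ^ 2 * (3 * c) + n * (c * ((d * n) + 1))) * q ^ 4)) * m +
      1 / 2 * ((d * n) * c * q ^ 5) + c * q ^ 5 := by
        have : 1 / 2 * (q * d * n) * k = 1 / 2 * ((q * d * n) * k) := by ring
        rw [this]
        gcongr
    _ = _ := by ring

theorem locC_le (N n D : ℕ) (K1 : ℝ) (hK1 : 0 ≤ K1) : ∃ C : ℝ, 0 ≤ C ∧ ∀ (l : ℕ) [NeZero l],
    locC N n D l K1 ≤ C * (l : ℝ) ^ (5 * D) := by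
  have hm := mm_nonneg N
  have hn : (0 : ℝ) ≤ n := Nat.cast_nonneg n
  have hd : (0 : ℝ) ≤ D := Nat.cast_nonneg D
  obtain ⟨c, hc⟩ : ∃ c : ℝ, c = 2 * ((2 * mm N + D * n * K1) ^ 2 * (D : ℝ) ^ 2 + 1) +
    K1 ^ 2 * (D : ℝ) ^ 2 := ⟨_, rfl⟩
  have hc0 : 0 ≤ c := by rw [hc]; positivity
  refine ⟨1 / 2 * (D * n * ((n : ℝ) ^ 2 * (3 * c) + n * (c * ((D * n) + 1)))) * mm N +
      1 / 2 * (D * n) * c + c, by positivity, ?_⟩
  intro l _
  have hl : (1 : ℝ) ≤ (l : ℝ) := by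
    exact_mod_cast Nat.one_le_iff_ne_zero.2 (NeZero.ne l)
  have hq : (1 : ℝ) ≤ (l : ℝ) ^ D := one_le_pow₀ hl
  have hk : kkC N n D l K1 ≤ c * ((l : ℝ) ^ D) ^ 3 := by
    unfold kkC
    rw [card_lnk2, hc]
    exact kk_real (mm N) K1 ((l : ℝ) ^ D) D n (nP D l) hm hK1 hq hd hn (nP_nonneg D l)
      (nP_le D l)
  have h := loc_real (mm N) ((l : ℝ) ^ D) D n (kkC N n D l K1) c hm hq hd hn
    (kkC_nonneg N n D l K1) hc0 hk
  have e : (l : ℝ) ^ (5 * D) = ((l : ℝ) ^ D) ^ 5 := by rw [← pow_mul, mul_comm]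
  rw [e]
  unfold locC
  rw [card_lnk, card_lnk2]
  exact h

theorem t_LOCVU (_h1 : S_EXPG) (h2 : S_LOGC) (h3 : S_JACG) : S_LOCVU := by
  intro N n D G hG B _ _ μ _ _
  obtain ⟨K1, t0, hK1, ht0, H⟩ := locv_core h2 h3 N n D G hG B μ
  obtain ⟨C0, hC0, hC⟩ := locC_le N n D K1 hK1
  have ht5 : 0 < t0 ^ 5 := by positivity
  refine ⟨5 * D, 1 + C0 + (t0 ^ 5)⁻¹, ?_, ?_⟩
  · have : 0 ≤ (t0 ^ 5)⁻¹ := by positivity
    linarith
  intro l _ M hM g hg hgM V F hF hsupp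
  have hl : (1 : ℝ) ≤ (l : ℝ) := by
    exact_mod_cast Nat.one_le_iff_ne_zero.2 (NeZero.ne l)
  have hq : (1 : ℝ) ≤ (l : ℝ) ^ (5 * D) := one_le_pow₀ hl
  have hinv : 0 < (t0 ^ 5)⁻¹ := by positivity
  have hM1 : (t0 ^ 5)⁻¹ < M := by
    rw [hM]
    nlinarith [mul_nonneg (by linarith : (0 : ℝ) ≤ 1 + C0 + (t0 ^ 5)⁻¹)
      (by linarith : (0 : ℝ) ≤ (l : ℝ) ^ (5 * D) - 1)]
  have hg0 : g < t0 ^ 5 := by
    refine hgM.trans_lt ?_
    have := inv_strictAnti₀ hinv hM1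
    rwa [inv_inv] at this
  have hLM : locC N n D l K1 ≤ M := by
    refine (hC l).trans ?_
    rw [hM]
    have : C0 ≤ 1 + C0 + (t0 ^ 5)⁻¹ := by linarith
    gcongr
  refine le_trans ?_ (H l g hg hg0 V F hF hsupp)
  have hI : 0 ≤ ∫ U, F U ^ 2 ∂(Measure.pi fun _ : Link D l => μ) :=
    integral_nonneg fun U => sq_nonneg _
  have hgr : 0 ≤ g ^ (1 / 5 : ℝ) := by positivity
  refine mul_le_mul_of_nonneg_right ?_ hI
  have := mul_le_mul_of_nonneg_right hLM hgr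
  linarith

end Pool.Agent.Q223.LU
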