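import Pool.Agent.Q223.LU.PlqU

/-! # Project LU (helper77), job LOCVU, lower bound of the magnetic energy, explicit constants -/

set_option autoImplicit false

namespace Pool.Agent.Q223.LU

open Matrix Set Filter Topology
open scoped ContDiff Matrix.Norms.Frobenius
open Pool.Agent.Q77.LU
open Pool.Agent.Q174.LU

/-- the constant of the lower bound -/
noncomputable def kkC (N n D l : ℕ) [NeZero l] (K1 : ℝ) : ℝ :=
  2 * Real.sqrt ((2 * mm N + (Fintype.card (Link D l × Fin n) : ℝ) * K1) ^ 2 * nP D l) +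
    K1 ^ 2 * nP D l

section
variable {N n : ℕ} {G : Subgroup (UU N)}

/-- Lower bound of the magnetic energy near `V`. -/
theorem mag_lowerU (h1 : S_LOGC) (hG : IsClosed (G : Set (UU N))) (B : LieBasis G n) (D : ℕ) :
    ∃ K1 ε : ℝ, 0 ≤ K1 ∧ 0 < ε ∧ ∀ (l : ℕ) [NeZero l] (K : ℝ), K = kkC N n D l K1 →
      ∀ V : Link D l → G,
      ∃ (A : Matrix (Link D l × Fin n) (Link D l × Fin n) ℝ) (c : Link D l × Fin n → ℝ),
      (∀ k m, A k m = A m k) ∧ trace A = tsq (hess B V) ∧ (∀ k m, |A k m| ≤ K) ∧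
      (∀ k, |c k| ≤ K) ∧
      ∀ (U : Link D l → G) (ρ t : ℝ), 0 ≤ ρ → ρ < ε → 0 < t → t ≤ 1 →
      (∀ e, ‖mt (U e) - mt (V e)‖ ≤ ρ) →
      (1 - t) / 2 * (∑ k, ((A *ᵥ yy B V U) k + c k) ^ 2) - K * ρ ^ 4 / t ≤ magnetic U := by
  obtain ⟨K1, ε1, hK1n, hε1, H'⟩ := plq_taylorU h1 hG B D
  refine ⟨K1, ε1, hK1n, hε1, ?_⟩
  intro l _ K hKdef
  have H : ∀ (x : Fin D → ZMod l) (i j : Fin D) (V : Link D l → G), _ := fun x i j V =>
    H' l x i j V
  set m := mm N with hm
  have hm0 : 0 ≤ m := mm_nonneg N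
  set nk : ℝ := (Fintype.card (Link D l × Fin n) : ℝ) with hnk
  have hnk0 : 0 ≤ nk := by positivity
  -- bound of the quadratic polynomial
  set Kq : ℝ := (2 * m + nk * K1) ^ 2 * nP D l with hKq
  have hKq0 : 0 ≤ Kq := mul_nonneg (sq_nonneg _) (nP_nonneg D l)
  set KK : ℝ := 2 * Real.sqrt Kq + K1 ^ 2 * nP D l with hKK
  have hKK0 : 0 ≤ KK := by
    have := nP_nonneg D l
    positivity
  have hKe : K = KK := hKdef
  rw [hKe]
  intro V
  set w : Link D l × Fin n → ℝ := fun k => SS fun x i j => (trace ((dpl B V x i j k)ᴴ *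
        (mt (plaq V x i j) - 1))).re with hw
  set r : ℝ := SS (fun x i j => ‖mt (plaq V x i j) - 1‖ ^ 2) with hr
  have hquad : ∀ y : Link D l × Fin n → ℝ, y ⬝ᵥ (hess B V *ᵥ y) + 2 * (w ⬝ᵥ y) + r =
      SS (fun x i j => ‖(mt (plaq V x i j) - 1) + ∑ k, y k • dpl B V x i j k‖ ^ 2) :=
    fun y => (quad_eq B V y).symm
  obtain ⟨A, c, hA, hAt, hAc⟩ := sqrt_lin (hess B V) (hess_psd B V) w r (fun y => by
    rw [hquad]
    exact SS_nonneg fun x i j => sq_nonneg _)
  have hdpl : ∀ x i j k, ‖dpl B V x i j k‖ ≤ K1 := fun x i j k =>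
    (H x i j V).1 k
  have hpl : ∀ x i j, ‖mt (plaq V x i j) - 1‖ ≤ 2 * m := by
    intro x i j
    refine (norm_sub_le _ _).trans ?_
    have e1 : ‖(1 : Mt N)‖ = m := norm_mt (1 : G)
    rw [norm_mt, e1]; linarith
  -- bound for `|y| ≤ 1`
  have hQb : ∀ y : Link D l × Fin n → ℝ, (∀ k, |y k| ≤ 1) →
      (A *ᵥ y + c) ⬝ᵥ (A *ᵥ y + c) ≤ Kq := by
    intro y hy
    refine (hAc y).trans ?_
    rw [hquad, hKq, ← SS_const]
    apply SS_mono
    intro x i j
    have h2 : ‖(mt (plaq V x i j) - 1) + ∑ k, y k • dpl B V x i j k‖ ≤ 2 * m + nk * K1 := by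
      refine (norm_add_le _ _).trans (add_le_add (hpl x i j) ?_)
      refine (norm_sum_le _ _).trans ?_
      calc ∑ k, ‖y k • dpl B V x i j k‖ ≤ ∑ _k : Link D l × Fin n, K1 := by
            refine Finset.sum_le_sum fun k _ => ?_
            rw [norm_smul, Real.norm_eq_abs]
            calc |y k| * ‖dpl B V x i j k‖ ≤ 1 * K1 := by
                  have := hy k
                  have := hdpl x i j k
                  gcongr
              _ = K1 := one_mul _
        _ = nk * K1 := by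
            rw [Finset.sum_const, nsmul_eq_mul, Finset.card_univ]
    gcongr
  have hcomp : ∀ (y : Link D l × Fin n → ℝ), (∀ k, |y k| ≤ 1) → ∀ k,
      |(A *ᵥ y) k + c k| ≤ Real.sqrt Kq := by
    intro y hy k
    rw [← Real.sqrt_sq_eq_abs]
    apply Real.sqrt_le_sqrt
    refine le_trans ?_ (hQb y hy)
    unfold dotProduct
    have := Finset.single_le_sum (f := fun k => (A *ᵥ y + c) k * (A *ᵥ y + c) k)
      (fun k _ => mul_self_nonneg _) (Finset.mem_univ k)
    refine le_trans (le_of_eq ?_) this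
    simp only [Pi.add_apply]; ring
  have hcb : ∀ k, |c k| ≤ Real.sqrt Kq := by
    intro k
    have := hcomp 0 (by simp) k
    simpa using this
  have hsq0 := Real.sqrt_nonneg Kq
  have hnn : 0 ≤ K1 ^ 2 * nP D l := mul_nonneg (sq_nonneg _) (nP_nonneg D l)
  refine ⟨A, c, hA, hAt, ?_, ?_, ?_⟩
  · intro k p
    have h3 := hcomp (Pi.single p 1) (by
      intro q
      by_cases h : q = p
      · rw [h, Pi.single_eq_same]; simp
      · rw [Pi.single_eq_of_ne h]; simp) k
    rw [mulVec_single_one] at h3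
    have h4 := hcb k
    have h5 : A k p = (A k p + c k) - c k := by ring
    have h6 : |A k p| ≤ |A k p + c k| + |c k| := by
      conv_lhs => rw [h5]
      exact abs_sub _ _
    have h7 : |A k p + c k| ≤ Real.sqrt Kq := h3
    rw [hKK]; linarith
  · intro k
    have := hcb k
    rw [hKK]; linarith
  · intro U ρ t hρ hρ1 ht ht1 hU
    have h8 : ∀ x i j, 1 / 2 * ((1 - t) *
        ‖(mt (plaq V x i j) - 1) + ∑ k, yy B V U k • dpl B V x i j k‖ ^ 2) -
        1 / 2 * ((K1 * ρ ^ 2) ^ 2 / t) ≤ 1 / 2 * ‖mt (plaq U x i j) - 1‖ ^ 2 := by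
      intro x i j
      have h11 := (H x i j V).2 U ρ hρ hρ1 hU
      have e3 : mt (plaq U x i j) - 1 =
          ((mt (plaq V x i j) - 1) + ∑ k, yy B V U k • dpl B V x i j k) +
          (mt (plaq U x i j) - mt (plaq V x i j) - ∑ k, yy B V U k • dpl B V x i j k) := by
        abel
      rw [e3]
      clear e3
      generalize (mt (plaq U x i j) - mt (plaq V x i j) - ∑ k, yy B V U k • dpl B V x i j k) = E'
        at h11 ⊢
      generalize (mt (plaq V x i j) - 1) + ∑ k, yy B V U k • dpl B V x i j k = z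
      have h12 : ‖z‖ - ‖E'‖ ≤ ‖z + E'‖ := by
        have := norm_sub_norm_le z (-E')
        rw [norm_neg, sub_neg_eq_add] at this
        exact this
      have h13 := young2 ‖z‖ ‖E'‖ t ‖z + E'‖ (norm_nonneg _) (norm_nonneg _) ht ht1
        (norm_nonneg _) h12
      have h14 : ‖E'‖ ^ 2 / t ≤ (K1 * ρ ^ 2) ^ 2 / t := by
        gcongr
      linarith
    have h22 := SS_mono h8
    rw [← magnetic_eq] at h22
    refine le_trans ?_ h22
    have h23 : SS (fun x i j => 1 / 2 * ((1 - t) *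
        ‖(mt (plaq V x i j) - 1) + ∑ k, yy B V U k • dpl B V x i j k‖ ^ 2) -
        1 / 2 * ((K1 * ρ ^ 2) ^ 2 / t)) = (1 - t) / 2 *
        (yy B V U ⬝ᵥ (hess B V *ᵥ yy B V U) + 2 * (w ⬝ᵥ yy B V U) + r) -
        1 / 2 * ((K1 * ρ ^ 2) ^ 2 / t) * nP D l := by
      rw [hquad, ← SS_mul, ← SS_const]
      have e4 : ∀ f g : (Fin D → ZMod l) → Fin D → Fin D → ℝ,
          SS (fun x i j => f x i j - g x i j) = SS f - SS g := by
        intro f g
        have := SS_add (fun x i j => f x i j - g x i j) g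
        simp only [sub_add_cancel] at this
        linarith
      rw [e4]
      congr 1
      congr 1
      funext x i j
      ring
    rw [h23]
    have h24 := hAc (yy B V U)
    have h25 : ∑ k, ((A *ᵥ yy B V U) k + c k) ^ 2 =
        (A *ᵥ yy B V U + c) ⬝ᵥ (A *ᵥ yy B V U + c) := by
      unfold dotProduct
      refine Finset.sum_congr rfl fun k _ => ?_
      rw [Pi.add_apply]; ring
    rw [h25]
    have h26 : 0 ≤ (1 - t) / 2 := by linarith
    have h27 := mul_le_mul_of_nonneg_left h24 h26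
    have h28 : 1 / 2 * ((K1 * ρ ^ 2) ^ 2 / t) * nP D l ≤ KK * ρ ^ 4 / t := by
      rw [hKK]
      have h29 : 1 / 2 * ((K1 * ρ ^ 2) ^ 2 / t) * nP D l =
          (1 / 2 * (K1 ^ 2 * nP D l)) * ρ ^ 4 / t := by ring
      rw [h29]
      gcongr
      linarith
    linarith

end

end Pool.Agent.Q223.LU
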