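import Pool.Agent.Q174.LU.LOCV

/-! # Project LU (helper77), job LOCVU, expansion of the plaquettes with uniform constants -/

set_option autoImplicit false

namespace Pool.Agent.Q223.LU

open Matrix Set Filter Topology
open scoped ContDiff Matrix.Norms.Frobenius
open Pool.Agent.Q77.LU
open Pool.Agent.Q174.LU

/-- the plaquette as a function of its four matrices -/
def P4 {N : ℕ} (a : Fin 4 → Mt N) : Mt N := a 0 * a 1 * (a 2)ᴴ * (a 3)ᴴ

theorem P4_smooth (N : ℕ) : ContDiff ℝ ∞ (P4 : (Fin 4 → Mt N) → Mt N) := by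
  have h : ∀ e : Fin 4, ContDiff ℝ ∞ (fun M : Fin 4 → Mt N => M e) :=
    fun e => contDiff_apply ℝ (Mt N) e
  have h' : ∀ e : Fin 4, ContDiff ℝ ∞ (fun M : Fin 4 → Mt N => (M e)ᴴ) :=
    fun e => (ctL N).contDiff.comp (h e)
  unfold P4
  exact (((h _).mul (h _)).mul (h' _)).mul (h' _)

section
variable {N n D l : ℕ} {G : Subgroup (UU N)}

/-- the links of a plaquette -/
def lk (x : Fin D → ZMod l) (i j : Fin D) : Fin 4 → Link D l :=
  ![(x, i), (x + unitv i, j), (x + unitv j, i), (x, j)]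

/-- restriction to the links of a plaquette -/
noncomputable def rL (N : ℕ) (x : Fin D → ZMod l) (i j : Fin D) :
    (Link D l → Mt N) →L[ℝ] (Fin 4 → Mt N) :=
  ContinuousLinearMap.pi fun k => ContinuousLinearMap.proj (lk x i j k)

theorem rL_apply (x : Fin D → ZMod l) (i j : Fin D) (M : Link D l → Mt N) (k : Fin 4) :
    rL N x i j M k = M (lk x i j k) := rfl

theorem pM_eq (x : Fin D → ZMod l) (i j : Fin D) (M : Link D l → Mt N) :
    pM x i j M = P4 (rL N x i j M) := rfl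

theorem rL_norm [NeZero l] (x : Fin D → ZMod l) (i j : Fin D) (M : Link D l → Mt N) :
    ‖rL N x i j M‖ ≤ ‖M‖ := by
  rw [pi_norm_le_iff_of_nonneg (norm_nonneg _)]
  intro k
  rw [rL_apply]
  exact norm_le_pi_norm M _

theorem pM_taylor (N : ℕ) (R : ℝ) : ∃ K : ℝ, 0 ≤ K ∧ ∀ (D l : ℕ) [NeZero l]
    (x : Fin D → ZMod l) (i j : Fin D),
    (∀ (u : Link D l → Mt N) (f' : (Link D l → Mt N) →L[ℝ] Mt N) (v : Link D l → Mt N),
      ‖u‖ ≤ R → HasFDerivAt (pM x i j) f' u → ‖f' v‖ ≤ K * ‖v‖) ∧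
    ∀ (u y : Link D l → Mt N) (f' : (Link D l → Mt N) →L[ℝ] Mt N) (w : Mt N), ‖u‖ ≤ R →
      ‖y‖ ≤ R → HasFDerivAt (pM x i j) f' u → f' (y - u) = w →
      ‖pM x i j y - pM x i j u - w‖ ≤ K * ‖y - u‖ ^ 2 := by
  obtain ⟨K, hK, H1, H2⟩ := taylor2h (P4 : (Fin 4 → Mt N) → Mt N) (P4_smooth N) R
  refine ⟨K, hK, fun D l _ x i j => ?_⟩
  have key : ∀ (u : Link D l → Mt N) (f' : (Link D l → Mt N) →L[ℝ] Mt N),
      HasFDerivAt (pM x i j) f' u → ∃ g' : (Fin 4 → Mt N) →L[ℝ] Mt N,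
      HasFDerivAt (P4 : (Fin 4 → Mt N) → Mt N) g' (rL N x i j u) ∧
      ∀ v, f' v = g' (rL N x i j v) := by
    intro u f' hf'
    have d1 : HasFDerivAt (P4 : (Fin 4 → Mt N) → Mt N)
        (fderiv ℝ (P4 : (Fin 4 → Mt N) → Mt N) (rL N x i j u)) (rL N x i j u) :=
      (((P4_smooth N).differentiable (by simp)).differentiableAt).hasFDerivAt
    have d2 := d1.comp u (rL N x i j).hasFDerivAt
    have e : (P4 : (Fin 4 → Mt N) → Mt N) ∘ (rL N x i j : (Link D l → Mt N) → (Fin 4 → Mt N)) =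
        pM x i j := rfl
    rw [e] at d2
    have d3 := hf'.unique d2
    exact ⟨_, d1, fun v => by rw [d3]; rfl⟩
  constructor
  · intro u f' v hu hf'
    obtain ⟨g', hg, hv⟩ := key u f' hf'
    rw [hv]
    refine (H1 _ g' _ ((rL_norm x i j u).trans hu) hg).trans ?_
    have := rL_norm x i j v
    gcongr
  · intro u y f' w hu hy hf' hw
    obtain ⟨g', hg, hv⟩ := key u f' hf'
    rw [hv, map_sub] at hw
    have h3 := H2 _ _ g' w ((rL_norm x i j u).trans hu) ((rL_norm x i j y).trans hy) hg hw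
    rw [pM_eq, pM_eq]
    refine h3.trans ?_
    rw [← map_sub]
    have := rL_norm x i j (y - u)
    gcongr

/-- Expansion of the plaquettes with constants that do not depend on the size of the lattice. -/
theorem plq_taylorU (h1 : S_LOGC) (hG : IsClosed (G : Set (UU N))) (B : LieBasis G n) (D : ℕ) :
    ∃ K ε : ℝ, 0 ≤ K ∧ 0 < ε ∧ ∀ (l : ℕ) [NeZero l] (x : Fin D → ZMod l) (i j : Fin D)
      (V : Link D l → G), (∀ k, ‖dpl B V x i j k‖ ≤ K) ∧
      ∀ (U : Link D l → G) (ρ : ℝ), 0 ≤ ρ → ρ < ε →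
      (∀ e, ‖mt (U e) - mt (V e)‖ ≤ ρ) →
      ‖mt (plaq U x i j) - mt (plaq V x i j) - ∑ k, yy B V U k • dpl B V x i j k‖ ≤
        K * ρ ^ 2 := by
  obtain ⟨K1, ε1, hK1, hε1, H1⟩ := proj h1 hG B
  obtain ⟨K2, hK2, H⟩ := pM_taylor N (mm N)
  have hX : ∀ a, ‖B.X a‖ = 1 := norm_X B
  have hm := mm_nonneg N
  refine ⟨K2 * mm N + K2 + K2 * (K1 * mm N ^ 2 * mm N), ε1 / (mm N + 1), by positivity,
    by positivity, ?_⟩
  intro l _ x i j V
  obtain ⟨H2, H3⟩ := H D l x i j
  have hf' : HasFDerivAt (pM x i j) (fderiv ℝ (pM x i j) (mU V)) (mU V) :=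
    (((pM_smooth x i j).differentiable (by simp)).differentiableAt).hasFDerivAt
  have hn : ∀ v, ‖fderiv ℝ (pM x i j) (mU V) v‖ ≤ K2 * ‖v‖ := fun v => H2 _ _ v (norm_mU V) hf'
  generalize fderiv ℝ (pM x i j) (mU V) = f' at hf' hn
  constructor
  · intro k
    rw [dpl_eq B V x i j k hf']
    have h2 : ‖dir B V k‖ ≤ mm N := by
      unfold dir
      rw [Pi.norm_single]
      refine (norm_mul_le _ _).trans ?_
      rw [hX, one_mul, norm_mt]
    calc ‖f' (dir B V k)‖ ≤ K2 * ‖dir B V k‖ := hn _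
      _ ≤ K2 * mm N := by gcongr
      _ ≤ _ := by
        have : 0 ≤ K2 + K2 * (K1 * mm N ^ 2 * mm N) := by positivity
        linarith
  · intro U ρ hρ hρ1 hU
    have hWn : ∀ e, ‖mt (U e) * (mt (V e))ᴴ - 1‖ ≤ mm N * ρ := fun e => W_norm V U e (hU e)
    -- the error
    obtain ⟨Er, hEr⟩ : ∃ Er : Link D l → Mt N, Er = fun e =>
      (mt (U e) * (mt (V e))ᴴ - 1 - lin B (crd B (mt (U e) * (mt (V e))ᴴ - 1))) * mt (V e) :=
      ⟨_, rfl⟩
    have hErn : ‖Er‖ ≤ K1 * mm N ^ 2 * mm N * ρ ^ 2 := by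
      rw [pi_norm_le_iff_of_nonneg (by positivity)]
      intro e
      have h3 : ‖mt (U e) * (mt (V e))ᴴ - 1‖ < ε1 := by
        refine (hWn e).trans_lt ?_
        calc mm N * ρ ≤ (mm N + 1) * ρ := by gcongr; linarith
          _ < (mm N + 1) * (ε1 / (mm N + 1)) := by gcongr
          _ = ε1 := by field_simp
      have h4 := H1 (U e * (V e)⁻¹) (by rw [mt_mul, mt_inv]; exact h3)
      rw [mt_mul, mt_inv] at h4
      rw [hEr]
      calc ‖(mt (U e) * (mt (V e))ᴴ - 1 - lin B (crd B (mt (U e) * (mt (V e))ᴴ - 1))) *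
            mt (V e)‖
          ≤ ‖mt (U e) * (mt (V e))ᴴ - 1 - lin B (crd B (mt (U e) * (mt (V e))ᴴ - 1))‖ *
            ‖mt (V e)‖ := norm_mul_le _ _
        _ ≤ (K1 * ‖mt (U e) * (mt (V e))ᴴ - 1‖ ^ 2) * mm N := by
            rw [norm_mt]; gcongr
        _ ≤ (K1 * (mm N * ρ) ^ 2) * mm N := by
            have := hWn e
            gcongr
        _ = _ := by ring
    have hdec : mU U - mU V = ∑ k, yy B V U k • dir B V k + Er := by
      funext e
      rw [Pi.add_apply, Finset.sum_apply]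
      have h5 : ∀ k : Link D l × Fin n, (yy B V U k • dir B V k) e =
          if k.1 = e then yy B V U k • (B.X k.2 * mt (V k.1)) else 0 := by
        intro k
        rw [Pi.smul_apply]
        unfold dir
        split_ifs with h
        · rw [← h, Pi.single_eq_same]
        · rw [Pi.single_eq_of_ne (Ne.symm h), smul_zero]
      simp only [h5]
      rw [Fintype.sum_prod_type, Finset.sum_eq_single e]
      · simp only [if_true]
        have h6 : ∑ a, yy B V U (e, a) • (B.X a * mt (V e)) =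
            lin B (crd B (mt (U e) * (mt (V e))ᴴ - 1)) * mt (V e) := by
          unfold lin
          rw [Finset.sum_mul]
          refine Finset.sum_congr rfl fun a _ => ?_
          rw [smul_mul_assoc]
          rfl
        rw [h6, hEr]
        simp only
        rw [sub_mul, sub_mul, one_mul, mul_assoc, mt_unit, mul_one]
        change mt (U e) - mt (V e) = _
        abel
      · intro e' _ he'
        simp [he']
      · intro h; exact absurd (Finset.mem_univ _) h
    have hd1 : f' (mU U - mU V) = ∑ k, yy B V U k • dpl B V x i j k + f' Er := by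
      rw [hdec, map_add, map_sum]
      congr 1
      refine Finset.sum_congr rfl fun k _ => ?_
      rw [map_smul, dpl_eq B V x i j k hf']
    have h7 := H3 (mU V) (mU U) f' _ (norm_mU V) (norm_mU U) hf' hd1
    rw [← mt_plaq, ← mt_plaq] at h7
    have h8 : ‖mU U - mU V‖ ≤ ρ := by
      rw [pi_norm_le_iff_of_nonneg hρ]
      exact hU
    have h9 : ‖f' Er‖ ≤ K2 * (K1 * mm N ^ 2 * mm N * ρ ^ 2) :=
      (hn _).trans (by gcongr)
    have e2 : mt (plaq U x i j) - mt (plaq V x i j) - ∑ k, yy B V U k • dpl B V x i j k =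
        (mt (plaq U x i j) - mt (plaq V x i j) -
          (∑ k, yy B V U k • dpl B V x i j k + f' Er)) + f' Er := by abel
    rw [e2]
    refine (norm_add_le _ _).trans ?_
    have h10 : K2 * ‖mU U - mU V‖ ^ 2 ≤ K2 * ρ ^ 2 := by gcongr
    have h11 : 0 ≤ K2 * mm N * ρ ^ 2 := by positivity
    nlinarith [h7, h9, h10, h11]

end

end Pool.Agent.Q223.LU
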